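import Pool.Agent.Helper93.GEO.Moore

namespace Pool.Agent.Results.MP_aaba17_co.EqualIsometricCycles

/-- `G` is geodetic: it is connected and any two vertices are joined by exactly one shortest walk
(equivalently, exactly one shortest path). -/
def Geodetic {V : Type*} (G : SimpleGraph V) : Prop :=
  G.Connected ∧ ∀ u v : V, ∃! p : G.Walk u v, p.length = G.dist u v

/-- `G` has an isometric cycle of length `n`: a map from `ZMod n` to the vertices which preserves
distances, where the distance of `i` and `j` on the cycle of length `n` is the smaller one of the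
two residues `i - j` and `j - i`. -/
def HasIsometricCycle {V : Type*} (G : SimpleGraph V) (n : ℕ) : Prop :=
  3 ≤ n ∧ ∃ f : ZMod n → V, ∀ i j : ZMod n, G.dist (f i) (f j) = min (i - j).val (j - i).val

/-- Let `G` be a finite `k`-regular geodetic graph in which every edge lies in exactly `l`
triangles and every isometric cycle has length `3` or `2 * r + 1`, where `r ≥ 1`. Then all
distances are at most `r`, and `G` has exactly `1 + k * ∑ i < r, (k - 1 - l) ^ i` vertices. -/
theorem result {V : Type*} [Fintype V] (G : SimpleGraph V) [DecidableRel G.Adj] (k l r : ℕ)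
    (hr : 1 ≤ r) (hreg : G.IsRegularOfDegree k) (hgeo : Geodetic G)
    (hl : ∀ u v : V, G.Adj u v → {w : V | G.Adj u w ∧ G.Adj v w}.ncard = l)
    (hcyc : ∀ n : ℕ, HasIsometricCycle G n → n = 3 ∨ n = 2 * r + 1) :
    (∀ u v : V, G.dist u v ≤ r) ∧
      Fintype.card V = 1 + k * ∑ i ∈ Finset.range r, (k - 1 - l) ^ i := by
  classical
  have hg : Pool.Agent.Helper30.GEO.Geo G := by
    apply Pool.Agent.Helper30.GEO.IsGeodetic.geo
    refine ⟨hgeo.1, ?_⟩
    intro u v p q hp hq
    exact (hgeo.2 u v).unique hp hq
  have ho : Pool.Agent.Helper93.GEO.OnlyR G r := by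
    intro n hn hf
    exact hcyc n ⟨hn, hf⟩
  have hreg' : ∀ v, (@Finset.filter V (fun w => G.Adj v w)
      (fun a => Classical.propDecidable _) Finset.univ).card = k := by
    intro v
    have := hreg v
    rw [← this, ← SimpleGraph.card_neighborFinset_eq_degree]
    congr 1
    ext w
    simp
  have hl' : ∀ u v, G.Adj u v → (Pool.Agent.Helper93.GEO.Cm G u v).card = l := by
    intro u v huv
    rw [← hl u v huv, Set.ncard_eq_toFinset_card']
    congr 1
    ext w
    simp [Pool.Agent.Helper93.GEO.Cm]
  exact ⟨Pool.Agent.Helper93.GEO.dist_le hg hr ho hreg' hl',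
    Pool.Agent.Helper93.GEO.total hg hr ho hreg' hl'⟩

end Pool.Agent.Results.MP_aaba17_co.EqualIsometricCycles
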