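import Pool.Agent.Helper30.GEO.Final

namespace Pool.Agent.Results.MP_aaba17_co.LongIsometricCycle

/-- `G` is geodetic: it is connected and any two vertices are joined by exactly one shortest walk
(equivalently, exactly one shortest path). -/
def Geodetic {V : Type*} (G : SimpleGraph V) : Prop :=
  G.Connected ∧ ∀ u v : V, ∃! p : G.Walk u v, p.length = G.dist u v

/-- `G` has an isometric cycle of length `n`: a map from `ZMod n` to the vertices which preserves
distances, where the distance of `i` and `j` on the cycle of length `n` is the smaller one of the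
two residues `i - j` and `j - i`. -/
def HasIsometricCycle {V : Type*} (G : SimpleGraph V) (n : ℕ) : Prop :=
  3 ≤ n ∧ ∃ f : ZMod n → V, ∀ i j : ZMod n, G.dist (f i) (f j) = min (i - j).val (j - i).val

open Finset Classical in
theorem card_bound {V : Type*} [Fintype V] (G : SimpleGraph V) (k : ℕ)
    (hc : G.Connected)
    (hreg : ∀ v, (univ.filter (fun w => G.Adj v w)).card = k)
    (hd : ∀ u v, G.dist u v ≤ 2) : Fintype.card V ≤ k ^ 2 + 1 := by
  classical
  obtain ⟨u⟩ := hc.nonempty
  have hsub : (univ : Finset V) ⊆ insert u ((univ.filter (fun w => G.Adj u w)) ∪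
      (univ.filter (fun w => G.Adj u w)).biUnion
        (fun w => (univ.filter (fun y => G.Adj w y)).erase u)) := by
    intro v _
    by_cases h1 : v = u
    · rw [h1]; exact mem_insert_self _ _
    rw [mem_insert, mem_union]
    right
    by_cases h2 : G.Adj u v
    · left; simp only [mem_filter, mem_univ, true_and]; exact h2
    right
    have hle := hd u v
    have h3 := hc.one_lt_dist_of_ne_of_not_adj (Ne.symm h1) h2
    obtain ⟨w, hw⟩ := hc.exists_walk_length_eq_dist u v
    cases w with
    | nil => exact absurd rfl h1
    | cons ha w' =>
      rename_i p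
      rw [mem_biUnion]
      refine ⟨p, by simpa using ha, ?_⟩
      rw [mem_erase]
      refine ⟨h1, ?_⟩
      simp only [mem_filter, mem_univ, true_and]
      rw [SimpleGraph.Walk.length_cons] at hw
      cases w' with
      | nil => simp at hw; omega
      | cons hb w'' =>
        rw [SimpleGraph.Walk.length_cons] at hw
        cases w'' with
        | nil => exact hb
        | cons _ _ =>
          rw [SimpleGraph.Walk.length_cons] at hw
          omega
  have h1 := card_le_card hsub
  rw [Finset.card_univ] at h1
  have h2 := card_insert_le u ((univ.filter (fun w => G.Adj u w)) ∪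
      (univ.filter (fun w => G.Adj u w)).biUnion
        (fun w => (univ.filter (fun y => G.Adj w y)).erase u))
  have h3 := card_union_le (univ.filter (fun w => G.Adj u w))
      ((univ.filter (fun w => G.Adj u w)).biUnion
        (fun w => (univ.filter (fun y => G.Adj w y)).erase u))
  have h4 : ((univ.filter (fun w => G.Adj u w)).biUnion
        (fun w => (univ.filter (fun y => G.Adj w y)).erase u)).card ≤
        (univ.filter (fun w => G.Adj u w)).card * (k - 1) := by
    apply card_biUnion_le_card_mul
    intro w hw
    simp only [mem_filter, mem_univ, true_and] at hw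
    rw [card_erase_of_mem (by simp only [mem_filter, mem_univ, true_and]; exact hw.symm), hreg w]
  rw [hreg u] at h3 h4
  have h5 : k + k * (k - 1) = k ^ 2 := by
    rcases k with _ | k
    · simp
    · simp only [Nat.add_sub_cancel]; ring
  omega

/-- Let `G` be a finite `k`-regular geodetic graph without isometric cycles of length at least
seven. Then any two vertices are at distance at most two, and `G` has at most `k ^ 2 + 1`
vertices. -/
theorem result {V : Type*} [Fintype V] (G : SimpleGraph V) [DecidableRel G.Adj] (k : ℕ)
    (hreg : G.IsRegularOfDegree k) (hgeo : Geodetic G)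
    (hcyc : ∀ n : ℕ, 7 ≤ n → ¬ HasIsometricCycle G n) :
    (∀ u v : V, G.dist u v ≤ 2) ∧ Fintype.card V ≤ k ^ 2 + 1 := by
  classical
  have hg : Pool.Agent.Helper30.GEO.Geo G := by
    apply Pool.Agent.Helper30.GEO.IsGeodetic.geo
    refine ⟨hgeo.1, ?_⟩
    intro u v p q hp hq
    exact (hgeo.2 u v).unique hp hq
  have hno : Pool.Agent.Helper30.GEO.NoLong G := by
    intro n hn hf
    exact hcyc n hn ⟨by omega, hf⟩
  have hreg' : ∀ v, (Finset.univ.filter (fun w => G.Adj v w)).card = k := by
    intro v
    have := hreg v
    rw [← this, ← SimpleGraph.card_neighborFinset_eq_degree]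
    congr 1
    ext w
    simp
  have hd : ∀ u v : V, G.dist u v ≤ 2 := by
    intro u v
    refine Pool.Agent.Helper30.GEO.dist_le_two hg hno (k := k) ?_ u v
    intro v
    convert hreg' v
  exact ⟨hd, card_bound G k hgeo.1 (by intro v; convert hreg' v) hd⟩

end Pool.Agent.Results.MP_aaba17_co.LongIsometricCycle
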