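import Pool.Agent.Helper93.GEO.Center

namespace Pool.Agent.Results.MP_aaba17_co.SelfCentered

/-- `G` is geodetic: it is connected and any two vertices are joined by exactly one shortest walk
(equivalently, exactly one shortest path). -/
def Geodetic {V : Type*} (G : SimpleGraph V) : Prop :=
  G.Connected ∧ ∀ u v : V, ∃! p : G.Walk u v, p.length = G.dist u v

/-- `G` has an isometric cycle of length `n`: a map from `ZMod n` to the vertices which preserves
distances, where the distance of `i` and `j` on the cycle of length `n` is the smaller one of the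
two residues `i - j` and `j - i`. -/
def HasIsometricCycle {V : Type*} (G : SimpleGraph V) (n : ℕ) : Prop :=
  3 ≤ n ∧ ∃ f : ZMod n → V, ∀ i j : ZMod n, G.dist (f i) (f j) = min (i - j).val (j - i).val

/-- Let `G` be a finite `k`-regular geodetic graph without isometric cycles longer than
`2 * R + 1`, where `R ≥ 1`, and let `D` be the largest distance in `G`. Then some vertex is at
distance at most `⌈D / 2⌉ + 2 * R - 2` from every vertex. If every vertex is at distance `D` from
some vertex, or if the automorphism group of `G` is transitive on the vertices, then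
`D ≤ 4 * R - 3`, and `G` has at most `1 + k * ∑ i < 4 * R - 3, (k - 1) ^ i` vertices. -/
theorem result {V : Type*} [Fintype V] (G : SimpleGraph V) [DecidableRel G.Adj] (k R D : ℕ)
    (hR : 1 ≤ R) (hreg : G.IsRegularOfDegree k) (hgeo : Geodetic G)
    (hcyc : ∀ n : ℕ, 2 * R + 1 < n → ¬ HasIsometricCycle G n)
    (hD : ∀ u v : V, G.dist u v ≤ D) (hDex : ∃ u v : V, G.dist u v = D) :
    (∃ c : V, ∀ v : V, G.dist c v + 2 ≤ (D + 1) / 2 + 2 * R) ∧
      ((∀ u : V, ∃ v : V, G.dist u v = D) ∨ (∀ u v : V, ∃ φ : G ≃g G, φ u = v) →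
        D ≤ 4 * R - 3 ∧
          Fintype.card V ≤ 1 + k * ∑ i ∈ Finset.range (4 * R - 3), (k - 1) ^ i) := by
  classical
  have hg : Pool.Agent.Helper30.GEO.Geo G := by
    apply Pool.Agent.Helper30.GEO.IsGeodetic.geo
    refine ⟨hgeo.1, ?_⟩
    intro u v p q hp hq
    exact (hgeo.2 u v).unique hp hq
  have hsh : Pool.Agent.Helper93.GEO.Short G R := by
    intro n hn hf
    exact hcyc n hn ⟨by omega, hf⟩
  have hreg' : ∀ v, (@Finset.filter V (fun w => G.Adj v w)
      (fun a => Classical.propDecidable _) Finset.univ).card = k := by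
    intro v
    have := hreg v
    rw [← this, ← SimpleGraph.card_neighborFinset_eq_degree]
    congr 1
    ext w
    simp
  have hiso : ∀ (φ : G ≃g G) (x y : V), G.dist (φ x) (φ y) = G.dist x y := by
    intro φ x y
    apply le_antisymm
    · obtain ⟨w, hw⟩ := hg.conn.exists_walk_length_eq_dist x y
      rw [← hw, ← SimpleGraph.Walk.length_map φ.toHom w]
      exact SimpleGraph.dist_le _
    · obtain ⟨w, hw⟩ := hg.conn.exists_walk_length_eq_dist (φ x) (φ y)
      have h1 := SimpleGraph.dist_le (w.map φ.symm.toHom)
      rw [SimpleGraph.Walk.length_map, hw] at h1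
      simpa using h1
  obtain ⟨y, x, hyx⟩ := hDex
  constructor
  · refine ⟨(Pool.Agent.Helper30.GEO.par G y)^[D / 2] x, ?_⟩
    intro v
    have := Pool.Agent.Helper93.GEO.center hg hR hsh hD hyx (m := D / 2) (by omega) v
    rw [SimpleGraph.dist_comm]
    omega
  · intro h
    have hself : ∀ u : V, ∃ v : V, G.dist u v = D := by
      rcases h with h | h
      · exact h
      · intro u
        obtain ⟨φ, hφ⟩ := h y u
        exact ⟨φ x, by rw [← hφ, hiso, hyx]⟩
    have hle := Pool.Agent.Helper93.GEO.selfcentered hg hR hsh hD hself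
    exact ⟨hle, Pool.Agent.Helper93.GEO.moore_bound hg hreg'
      (fun u v => (hD u v).trans hle)⟩

end Pool.Agent.Results.MP_aaba17_co.SelfCentered
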