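import Pool.Agent.Helper93.GEO.Sym

namespace Pool.Agent.Results.MP_aaba17_co.SymmetricExtensions

/-- `G` is geodetic: it is connected and any two vertices are joined by exactly one shortest walk
(equivalently, exactly one shortest path). -/
def Geodetic {V : Type*} (G : SimpleGraph V) : Prop :=
  G.Connected ∧ ∀ u v : V, ∃! p : G.Walk u v, p.length = G.dist u v

/-- `G` has an isometric cycle of length `n`: a map from `ZMod n` to the vertices which preserves
distances, where the distance of `i` and `j` on the cycle of length `n` is the smaller one of the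
two residues `i - j` and `j - i`. -/
def HasIsometricCycle {V : Type*} (G : SimpleGraph V) (n : ℕ) : Prop :=
  3 ≤ n ∧ ∃ f : ZMod n → V, ∀ i j : ZMod n, G.dist (f i) (f j) = min (i - j).val (j - i).val

/-- the number of neighbours of `y` which are farther from `x` than `y` is -/
noncomputable def farther {V : Type*} (G : SimpleGraph V) (x y : V) : ℕ :=
  {w : V | G.Adj y w ∧ G.dist x w = G.dist x y + 1}.ncard

/-- the number of neighbours of `y` which are closer to `x` than `y` is -/
noncomputable def closer {V : Type*} (G : SimpleGraph V) (x y : V) : ℕ :=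
  {w : V | G.Adj y w ∧ G.dist x w + 1 = G.dist x y}.ncard

/-- Let `G` be a finite `k`-regular geodetic graph such that for any two vertices `x`, `y` the
number of neighbours of `y` farther from `x` equals the number of neighbours of `x` farther from
`y`, or some automorphism of `G` exchanges `x` and `y`. Then `G` is distance-regular: the number
of neighbours of `y` farther from `x` depends only on the distance of `x` and `y` (and the number
of closer neighbours is `1` if `x ≠ y`). If moreover `D ≥ 2` is the largest distance in `G`, then
`G` has an isometric cycle of length `2 * D + 1`. -/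
theorem result {V : Type*} [Fintype V] (G : SimpleGraph V) [DecidableRel G.Adj] (k : ℕ)
    (hreg : G.IsRegularOfDegree k) (hgeo : Geodetic G)
    (hsym : ∀ x y : V, farther G x y = farther G y x ∨ ∃ φ : G ≃g G, φ x = y ∧ φ y = x) :
    (∃ b : ℕ → ℕ, ∀ x y : V, farther G x y = b (G.dist x y)) ∧
      (∀ x y : V, x ≠ y → closer G x y = 1) ∧
      ∀ D : ℕ, 2 ≤ D → (∀ u v : V, G.dist u v ≤ D) → (∃ u v : V, G.dist u v = D) →
        HasIsometricCycle G (2 * D + 1) := by
  classical
  have hg : Pool.Agent.Helper30.GEO.Geo G := by
    apply Pool.Agent.Helper30.GEO.IsGeodetic.geo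
    refine ⟨hgeo.1, ?_⟩
    intro u v p q hp hq
    exact (hgeo.2 u v).unique hp hq
  have hreg' : ∀ v, (@Finset.filter V (fun w => G.Adj v w)
      (fun a => Classical.propDecidable _) Finset.univ).card = k := by
    intro v
    have := hreg v
    rw [← this, ← SimpleGraph.card_neighborFinset_eq_degree]
    congr 1
    ext w
    simp
  have hF : ∀ x y, farther G x y = (Pool.Agent.Helper93.GEO.Far G x y).card := by
    intro x y
    unfold farther
    rw [Set.ncard_eq_toFinset_card']
    congr 1
    ext w
    simp [Pool.Agent.Helper93.GEO.Far]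
  have hiso : ∀ (φ : G ≃g G) (x y : V), G.dist (φ x) (φ y) = G.dist x y := by
    intro φ x y
    apply le_antisymm
    · obtain ⟨w, hw⟩ := hg.conn.exists_walk_length_eq_dist x y
      rw [← hw, ← SimpleGraph.Walk.length_map φ.toHom w]
      exact SimpleGraph.dist_le _
    · obtain ⟨w, hw⟩ := hg.conn.exists_walk_length_eq_dist (φ x) (φ y)
      have h1 := SimpleGraph.dist_le (w.map φ.symm.toHom)
      rw [SimpleGraph.Walk.length_map, hw] at h1
      simpa using h1
  have hs : ∀ x y, (Pool.Agent.Helper93.GEO.Far G x y).card =
      (Pool.Agent.Helper93.GEO.Far G y x).card := by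
    intro x y
    rcases hsym x y with h | ⟨φ, h1, h2⟩
    · rw [hF, hF] at h
      exact h
    · apply Finset.card_bij (fun w _ => φ w)
      · intro w hw
        simp only [Pool.Agent.Helper93.GEO.Far, Finset.mem_filter, Finset.mem_univ,
          true_and] at hw ⊢
        obtain ⟨a1, a2⟩ := hw
        refine ⟨?_, ?_⟩
        · rw [← h2]
          exact φ.map_adj_iff.2 a1
        · have e1 := hiso φ x w
          have e2 := hiso φ x y
          rw [h1] at e1
          rw [h1, h2] at e2
          omega
      · intro a _ b _ hab
        exact φ.injective hab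
      · intro w hw
        simp only [Pool.Agent.Helper93.GEO.Far, Finset.mem_filter, Finset.mem_univ,
          true_and] at hw
        obtain ⟨a1, a2⟩ := hw
        refine ⟨φ.symm w, ?_, by simp⟩
        simp only [Pool.Agent.Helper93.GEO.Far, Finset.mem_filter, Finset.mem_univ,
          true_and]
        refine ⟨?_, ?_⟩
        · rw [← φ.map_adj_iff, h2]
          simpa using a1
        · have e1 := hiso φ x (φ.symm w)
          have e2 := hiso φ x y
          simp only [RelIso.apply_symm_apply] at e1
          rw [h1] at e1
          rw [h1, h2] at e2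
          omega
  refine ⟨?_, ?_, ?_⟩
  · refine ⟨fun d => if h : ∃ p : V × V, G.dist p.1 p.2 = d then
      farther G h.choose.1 h.choose.2 else 0, ?_⟩
    intro x y
    have h : ∃ p : V × V, G.dist p.1 p.2 = G.dist x y := ⟨(x, y), rfl⟩
    simp only
    rw [dif_pos h, hF, hF]
    exact Pool.Agent.Helper93.GEO.Far_const hg hreg' hs h.choose_spec.symm
  · intro x y hxy
    unfold closer
    rw [Set.ncard_eq_one]
    obtain ⟨p, p1, p2⟩ := hg.exists_par hxy
    refine ⟨p, ?_⟩
    ext w
    simp only [Set.mem_singleton_iff]
    constructor
    · rintro ⟨w1, w2⟩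
      exact hg.uniq x y w p w1 p1 w2 p2
    · rintro rfl
      exact ⟨p1, p2⟩
  · intro D hD2 hD ⟨x, y, hxy⟩
    refine ⟨by omega, ?_⟩
    have hdead : Pool.Agent.Helper93.GEO.DeadSym G := by
      intro a b ⟨w, h1, h2⟩
      have hpos : 0 < (Pool.Agent.Helper93.GEO.Far G a b).card :=
        Finset.card_pos.2 ⟨w, by simp [Pool.Agent.Helper93.GEO.Far, h1, h2]⟩
      rw [hs a b] at hpos
      obtain ⟨w', hw'⟩ := Finset.card_pos.1 hpos
      simp only [Pool.Agent.Helper93.GEO.Far, Finset.mem_filter, Finset.mem_univ,
        true_and] at hw'
      exact ⟨w', hw'⟩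
    have hE : Pool.Agent.Helper93.GEO.Far G x y = ∅ := by
      rw [Finset.eq_empty_iff_forall_notMem]
      intro w hw
      simp only [Pool.Agent.Helper93.GEO.Far, Finset.mem_filter, Finset.mem_univ,
        true_and] at hw
      have := hD x w
      omega
    have := Pool.Agent.Helper93.GEO.iso_of_dead hg hdead (by omega) hE
    rw [hxy] at this
    exact this

end Pool.Agent.Results.MP_aaba17_co.SymmetricExtensions
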